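import Pool.Agent.R550.FE.Final
import Pool.Agent.H622R2.CoNP
import Pool.Agent.H671R2.Search

/-!
# FEAS is NP-hard
-/

namespace Pool.Agent.Results.MP_0403ae_lc.FeasibilityHard

open Pool.Agent.NPC Pool.Agent.R550.FE

/-- (1) FEAS is NP-hard: every language `L` in `NP` has a polynomial-time computable map `f` to
instances of FEAS such that `x` is in `L` iff `f x` is feasible. (2) FEAS, as a language, is NP-hard
under polynomial-time many-one reductions. (3) If some polynomial-time algorithm decides FEAS, then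
`P = NP`. -/
theorem result :
    (∀ L : Set (List Bool), InNP L → ∃ f : List Bool → List (List ℕ),
      PolyTime (fun x => bits (f x)) ∧ ∀ x, IsInstance (f x) ∧ (x ∈ L ↔ Feasible (f x))) ∧
    NPHardP (fun α : List (List ℕ) => IsInstance α ∧ Feasible α) ∧
    ((∃ F : List Bool → List Bool, PolyTime F ∧ ∀ α : List (List ℕ), IsInstance α →
        (F (bits α) = [true] ↔ Feasible α)) →
      ∀ L : Set (List Bool), InNP L → InP L) := by
  refine ⟨fun L hL => ?_, ?_, ?_⟩
  · obtain ⟨f, hf, hpr, hfL⟩ := hard L hL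
    exact ⟨f, PC.toPolyTime hf, fun x => ⟨hpr x, hfL x⟩⟩
  · intro L hL
    obtain ⟨f, hf, hpr, hfL⟩ := hard L hL
    refine ⟨fun x => bits (f x), PC.toPolyTime hf, fun x => ?_⟩
    rw [bits_mem_lang, hfL x]
    exact ⟨fun h => ⟨hpr x, h⟩, fun h => h.2⟩
  · rintro ⟨F, hF, h⟩
    refine hard.collapse (d := fun x => decide (F (bits x) = [true])) ?_ ?_
    · exact NPC.Poly.decide_eq ((Pool.Agent.H622R2.poly_of_polyTime hF).comp
        R671.poly_bits) (NPC.Poly.const [true])
    · intro α hα
      rw [decide_eq_true_eq]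
      exact (h α hα).symm

end Pool.Agent.Results.MP_0403ae_lc.FeasibilityHard
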